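import Pool.Agent.Y63.AWC.Wt
import Pool.Agent.Q100.EQ.Tra

set_option autoImplicit false
set_option linter.unusedSectionVars false

/-!
# Orbits of a normal subgroup and their stabilisers
-/

open scoped Classical BigOperators
open Pool.Agent.Y63.AWC (orbit_sum b01 b01_pos b01_neg b01_congr finsum_ite_eq_card)

noncomputable section

namespace Pool.Agent.Q100.EW

variable {E Ω : Type} [Group E] [Finite E] [MulAction E Ω] [Finite Ω] (G : Subgroup E) [hG : G.Normal]

/-- the stabiliser of the `G`-orbit -/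
def SS (w : Ω) : Subgroup E := MulAction.stabilizer E w ⊔ G

variable {G}

lemma mem_SS {w : Ω} {e : E} : e ∈ SS G w ↔ ∃ g ∈ G, (g * e) • w = w := by
  unfold SS
  rw [Subgroup.mem_sup_of_normal_right]
  constructor
  · rintro ⟨x, hx, g, hg, rfl⟩
    refine ⟨x * g⁻¹ * x⁻¹, hG.conj_mem _ (G.inv_mem hg) x, ?_⟩
    have h1 : x * g⁻¹ * x⁻¹ * (x * g) = x := by group
    rw [h1]
    exact hx
  · rintro ⟨g, hg, h⟩
    refine ⟨g * e, h, e⁻¹ * g⁻¹ * e, ?_, by group⟩
    have := hG.conj_mem _ (G.inv_mem hg) e⁻¹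
    rwa [inv_inv] at this

lemma G_le_SS (w : Ω) : G ≤ SS G w := le_sup_right

lemma SS_smul (g : E) (hg : g ∈ G) (w : Ω) : SS G (g • w) = SS G w := by
  have key : ∀ (g : E) (_ : g ∈ G) (w : Ω), SS G w ≤ SS G (g • w) := by
    intro g hg w e he
    rw [mem_SS] at he ⊢
    obtain ⟨x, hx, h⟩ := he
    refine ⟨g * x * (e * g⁻¹ * e⁻¹), G.mul_mem (G.mul_mem hg hx)
      (hG.conj_mem _ (G.inv_mem hg) e), ?_⟩
    rw [smul_smul]
    have h1 : g * x * (e * g⁻¹ * e⁻¹) * e * g = g * (x * e) := by group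
    rw [h1, mul_smul, h]
  refine le_antisymm ?_ (key g hg w)
  have h1 := key g⁻¹ (G.inv_mem hg) (g • w)
  rwa [inv_smul_smul] at h1

lemma rel_iff {a b : Ω} : (MulAction.orbitRel G Ω).r a b ↔ ∃ g : G, g • a = b := by
  constructor
  · intro h
    have h1 : a ∈ MulAction.orbit G b := h
    obtain ⟨g, hg⟩ := h1
    have hg' : g • b = a := hg
    exact ⟨g⁻¹, by rw [← hg', inv_smul_smul]⟩
  · rintro ⟨g, rfl⟩
    change a ∈ MulAction.orbit G (g • a)
    exact ⟨g⁻¹, inv_smul_smul g a⟩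

lemma SS_rel {a b : Ω} (h : (MulAction.orbitRel G Ω).r a b) : SS G a = SS G b := by
  obtain ⟨g, rfl⟩ := rel_iff.mp h
  exact (SS_smul (g : E) g.2 a).symm

/-- the number of `G`-orbits whose stabiliser has the property `R` -/
def cntS {E : Type} [Group E] (G : Subgroup E) [G.Normal] (Ω : Type) [MulAction E Ω]
    (R : Subgroup E → Prop) : ℕ :=
  Nat.card {c : MulAction.orbitRel.Quotient G Ω // R (SS G c.out)}

/-- the order of the stabiliser in `G` -/
def gs (G : Subgroup E) (w : Ω) : ℕ := Nat.card (MulAction.stabilizer E w ⊓ G : Subgroup E)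

lemma card_stab (w : Ω) : Nat.card (MulAction.stabilizer G w) = gs G w := by
  unfold gs
  refine Nat.card_congr
    { toFun := fun g => ⟨g.1.1, g.2, g.1.2⟩
      invFun := fun g => ⟨⟨g.1, g.2.2⟩, g.2.1⟩
      left_inv := fun _ => rfl
      right_inv := fun _ => rfl }

lemma gs_pos (w : Ω) : 0 < gs G w := Nat.card_pos

theorem card_mul_cntS [Fintype Ω] (R : Subgroup E → Prop) :
    Nat.card G * cntS G Ω R = ∑ w : Ω, gs G w * b01 (R (SS G w)) := by
  have h := orbit_sum (G := G) (MulAction.orbitRel G Ω) (fun a b => rel_iff)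
    (fun w => b01 (R (SS G w))) (fun a b hab => by rw [SS_rel hab])
  have h2 : ∑ᶠ c : Quotient (MulAction.orbitRel G Ω), b01 (R (SS G c.out)) = cntS G Ω R :=
    finsum_ite_eq_card (fun c : Quotient (MulAction.orbitRel G Ω) => R (SS G c.out))
  rw [h2] at h
  rw [h]
  refine Finset.sum_congr rfl fun w _ => ?_
  rw [card_stab]

/-- the elements of a coset that fix a point -/
theorem card_coset (e : E) (w : Ω) :
    Nat.card {z : E // (z : E ⧸ G) = (e : E ⧸ G) ∧ z • w = w} = gs G w * b01 (e ∈ SS G w) := by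
  by_cases h : e ∈ SS G w
  · rw [b01_pos h, mul_one]
    obtain ⟨g, hg, hgw⟩ := mem_SS.mp h
    have hge : ((g * e : E) : E ⧸ G) = (e : E ⧸ G) := by
      rw [← Pool.Agent.Q100.IV.coset_iff]
      have : g * e * e⁻¹ = g := by group
      rw [this]
      exact hg
    unfold gs
    refine Nat.card_congr
      { toFun := fun z => ⟨z.1 * (g * e)⁻¹, ?_, ?_⟩
        invFun := fun z => ⟨z.1 * (g * e), ?_, ?_⟩
        left_inv := fun z => Subtype.ext (inv_mul_cancel_right _ _)
        right_inv := fun z => Subtype.ext (mul_inv_cancel_right _ _) }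
    · change (z.1 * (g * e)⁻¹) • w = w
      have h1 : (g * e)⁻¹ • w = w := by rw [inv_smul_eq_iff, hgw]
      rw [mul_smul, h1, z.2.2]
    · change z.1 * (g * e)⁻¹ ∈ G
      rw [Pool.Agent.Q100.IV.coset_iff, hge]
      exact z.2.1
    · rw [← hge, ← Pool.Agent.Q100.IV.coset_iff, mul_inv_cancel_right]
      exact z.2.2
    · have h1 : z.1 • w = w := z.2.1
      rw [mul_smul, hgw, h1]
  · rw [b01_neg h, mul_zero, Nat.card_eq_zero]
    left
    refine ⟨fun z => h ?_⟩
    rw [mem_SS]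
    refine ⟨z.1 * e⁻¹, Pool.Agent.Q100.IV.coset_iff.mpr z.2.1, ?_⟩
    rw [inv_mul_cancel_right]
    exact z.2.2

/-- the size of the part of the stabiliser in `M` -/
theorem card_SS {M : Subgroup E} (hGM : G ≤ M) (w : Ω) :
    Nat.card (SS G w ⊓ M : Subgroup E) * gs G w =
      Nat.card G * Nat.card (MulAction.stabilizer E w ⊓ M : Subgroup E) := by
  have h1 : SS G w ⊓ M = (MulAction.stabilizer E w ⊓ M) ⊔ G := by
    apply le_antisymm
    · rintro x ⟨hx, hxM⟩
      have hx' : x ∈ MulAction.stabilizer E w ⊔ G := hx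
      rw [Subgroup.mem_sup_of_normal_right] at hx'
      obtain ⟨a, ha, g, hg, rfl⟩ := hx'
      refine Subgroup.mul_mem _ (Subgroup.mem_sup_left ⟨ha, ?_⟩) (Subgroup.mem_sup_right hg)
      have h2 := M.mul_mem hxM (M.inv_mem (hGM hg))
      rwa [mul_inv_cancel_right] at h2
    · exact sup_le (inf_le_inf_right _ le_sup_left) (le_inf le_sup_right hGM)
  have h2 : G ≤ SS G w ⊓ M := le_inf (G_le_SS w) hGM
  have h3 := Pool.Agent.Q100.EQ.card_rel h2
  rw [h3]
  have h4 : G.relIndex (SS G w ⊓ M) = G.relIndex (MulAction.stabilizer E w ⊓ M) := by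
    rw [h1, Subgroup.relIndex_sup_right]
  rw [h4]
  have h5 : gs G w * G.relIndex (MulAction.stabilizer E w ⊓ M) =
      Nat.card (MulAction.stabilizer E w ⊓ M : Subgroup E) := by
    have h6 := Subgroup.card_mul_index (G.subgroupOf (MulAction.stabilizer E w ⊓ M))
    have h7 : Nat.card (G.subgroupOf (MulAction.stabilizer E w ⊓ M)) = gs G w := by
      unfold gs
      refine Nat.card_congr
        { toFun := fun g => ⟨g.1.1, g.1.2.1, g.2⟩
          invFun := fun g => ⟨⟨g.1, g.2.1, hGM g.2.2⟩, g.2.2⟩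
          left_inv := fun _ => rfl
          right_inv := fun _ => rfl }
    rw [h7] at h6
    exact h6
  rw [mul_assoc, mul_comm (G.relIndex _), h5]

/-- the sum over pairs -/
def PP (G : Subgroup E) (Ω : Type) [MulAction E Ω] [G.Normal] (M : Subgroup E) : ℕ :=
  ∑ᶠ q : M × M, cntS G Ω (fun S => (q.1 : E) ∈ S ∧ (q.2 : E) ∈ S)

theorem PP_eq [Fintype Ω] {M : Subgroup E} (hGM : G ≤ M) :
    (PP G Ω M : ℚ) = (Nat.card G : ℚ) *
      ∑ w : Ω, (Nat.card (MulAction.stabilizer E w ⊓ M : Subgroup E) : ℚ) ^ 2 / (gs G w : ℚ) := by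
  have := Fintype.ofFinite M
  have hG0 : (Nat.card G : ℚ) ≠ 0 := by exact_mod_cast (Nat.card_pos (α := G)).ne'
  have h1 : Nat.card G * PP G Ω M = ∑ w : Ω, gs G w * Nat.card (SS G w ⊓ M : Subgroup E) ^ 2 := by
    unfold PP
    rw [finsum_eq_sum_of_fintype, Finset.mul_sum]
    rw [Finset.sum_congr rfl (fun q _ => card_mul_cntS (G := G) (Ω := Ω)
      (fun S => (q.1 : E) ∈ S ∧ (q.2 : E) ∈ S))]
    rw [Finset.sum_comm]
    refine Finset.sum_congr rfl fun w _ => ?_
    rw [← Finset.mul_sum]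
    congr 1
    have h2 : ∀ q : M × M, b01 ((q.1 : E) ∈ SS G w ∧ (q.2 : E) ∈ SS G w) =
        b01 ((q.1 : E) ∈ SS G w) * b01 ((q.2 : E) ∈ SS G w) := by
      intro q
      by_cases h3 : (q.1 : E) ∈ SS G w
      · by_cases h4 : (q.2 : E) ∈ SS G w
        · rw [b01_pos ⟨h3, h4⟩, b01_pos h3, b01_pos h4]
        · rw [b01_neg (fun h => h4 h.2), b01_neg h4, mul_zero]
      · rw [b01_neg (fun h => h3 h.1), b01_neg h3, zero_mul]
    simp only [h2]
    rw [Fintype.sum_prod_type]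
    simp only [← Finset.mul_sum]
    rw [← Finset.sum_mul, ← sq]
    congr 1
    unfold b01
    rw [Finset.sum_boole, ← Fintype.card_subtype, ← Nat.card_eq_fintype_card]
    change Nat.card {x : M // (x : E) ∈ SS G w} = _
    exact Nat.card_congr
      { toFun := fun g => ⟨g.1.1, g.2, g.1.2⟩
        invFun := fun g => ⟨⟨g.1, g.2.2⟩, g.2.1⟩
        left_inv := fun _ => rfl
        right_inv := fun _ => rfl }
  have h3 : (Nat.card G : ℚ) * (PP G Ω M : ℚ) =
      ∑ w : Ω, (gs G w : ℚ) * (Nat.card (SS G w ⊓ M : Subgroup E) : ℚ) ^ 2 := by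
    exact_mod_cast h1
  refine mul_left_cancel₀ hG0 ?_
  rw [h3, ← mul_assoc, Finset.mul_sum]
  refine Finset.sum_congr rfl fun w _ => ?_
  have h4 : (Nat.card (SS G w ⊓ M : Subgroup E) : ℚ) * (gs G w : ℚ) =
      (Nat.card G : ℚ) * (Nat.card (MulAction.stabilizer E w ⊓ M : Subgroup E) : ℚ) := by
    exact_mod_cast card_SS hGM w
  have h5 : (gs G w : ℚ) ≠ 0 := by exact_mod_cast (gs_pos w).ne'
  rw [← mul_div_assoc, eq_div_iff h5]
  have : (gs G w : ℚ) * (Nat.card (SS G w ⊓ M : Subgroup E) : ℚ) ^ 2 * (gs G w : ℚ) =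
    ((Nat.card (SS G w ⊓ M : Subgroup E) : ℚ) * (gs G w : ℚ)) ^ 2 := by ring
  rw [this, h4]
  ring

end Pool.Agent.Q100.EW
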