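import Pool.Agent.Q100.EW.Ind

set_option autoImplicit false
set_option linter.unusedSectionVars false

/-!
# Fixed orbits and equivariant bijections
-/

open scoped Classical BigOperators
open Pool.Agent.Q100.IV (coset_iff)

noncomputable section

namespace Pool.Agent.Q100.EW

/-- The number of the `G`-orbits on `Ω` that are mapped to themselves by `e`. -/
def fixedOrbits {E : Type} [Group E] (G : Subgroup E) (Ω : Type) [MulAction E Ω] (e : E) : ℕ :=
  Nat.card {c : MulAction.orbitRel.Quotient G Ω //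
    ∃ w : Ω, Quotient.mk'' w = c ∧ Quotient.mk'' (e • w) = c}

/-- There is a bijection between the `G`-orbits on `Ω` and those on `Ω'` that commutes with the action
of `E`. -/
def EquivariantBijection {E : Type} [Group E] (G : Subgroup E) (Ω Ω' : Type) [MulAction E Ω]
    [MulAction E Ω'] : Prop :=
  ∃ f : MulAction.orbitRel.Quotient G Ω ≃ MulAction.orbitRel.Quotient G Ω',
    ∀ (e : E) (w : Ω) (w' : Ω'), f (Quotient.mk'' w) = Quotient.mk'' w' →
      f (Quotient.mk'' (e • w)) = Quotient.mk'' (e • w')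

variable {E Ω Ω' : Type} [Group E] [Finite E] [MulAction E Ω] [Finite Ω] [MulAction E Ω'] [Finite Ω']
  {G : Subgroup E} [hG : G.Normal]

lemma mk_iff {a b : Ω} : (Quotient.mk'' a : MulAction.orbitRel.Quotient G Ω) = Quotient.mk'' b ↔
    ∃ g ∈ G, g • a = b := by
  constructor
  · intro h
    obtain ⟨g, hg⟩ := rel_iff.mp (Quotient.exact' h)
    exact ⟨g.1, g.2, hg⟩
  · rintro ⟨g, hg, h⟩
    exact Quotient.sound' (rel_iff.mpr ⟨⟨g, hg⟩, h⟩)

lemma fixed_iff {e : E} {w : Ω} :
    (Quotient.mk'' (e • w) : MulAction.orbitRel.Quotient G Ω) = Quotient.mk'' w ↔ e ∈ SS G w := by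
  rw [mk_iff, mem_SS]
  refine exists_congr fun g => and_congr_right fun _ => ?_
  rw [mul_smul]

lemma smul_rel {e : E} {a b : Ω} (h : (Quotient.mk'' a : MulAction.orbitRel.Quotient G Ω) =
    Quotient.mk'' b) : (Quotient.mk'' (e • a) : MulAction.orbitRel.Quotient G Ω) =
    Quotient.mk'' (e • b) := by
  obtain ⟨g, hg, hgb⟩ := mk_iff.mp h
  refine mk_iff.mpr ⟨e * g * e⁻¹, hG.conj_mem g hg e, ?_⟩
  rw [← hgb, smul_smul, smul_smul, inv_mul_cancel_right]

lemma out_mk (c : MulAction.orbitRel.Quotient G Ω) :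
    (Quotient.mk'' c.out : MulAction.orbitRel.Quotient G Ω) = c := Quotient.out_eq' c

lemma SS_out (w : Ω) : SS G (Quotient.mk'' w : MulAction.orbitRel.Quotient G Ω).out = SS G w := by
  have h := out_mk (Quotient.mk'' w : MulAction.orbitRel.Quotient G Ω)
  exact SS_rel (Quotient.exact' h)

lemma fixed_eq (e : E) : fixedOrbits G Ω e = cntS G Ω (fun S => e ∈ S) := by
  unfold fixedOrbits cntS
  refine Nat.card_congr (Equiv.subtypeEquivRight fun c => ?_)
  change _ ↔ e ∈ SS G c.out
  rw [← fixed_iff]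
  constructor
  · rintro ⟨w, h1, h2⟩
    exact (smul_rel (e := e) (a := c.out) (b := w) (by rw [out_mk, h1])).trans
      (h2.trans (out_mk c).symm)
  · intro h
    refine ⟨c.out, out_mk c, ?_⟩
    rw [h, out_mk]

/-- the action on the orbits -/
@[reducible] def qAct : MulAction E (MulAction.orbitRel.Quotient G Ω) where
  smul e := Quotient.map' (fun w => e • w) (fun a b h => by
    have h1 := smul_rel (e := e) (Quotient.sound' h : (Quotient.mk'' a :
      MulAction.orbitRel.Quotient G Ω) = Quotient.mk'' b)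
    exact Quotient.exact' h1)
  one_smul c := by
    induction c using Quotient.inductionOn' with
    | h w =>
      change (Quotient.mk'' ((1 : E) • w) : MulAction.orbitRel.Quotient G Ω) = Quotient.mk'' w
      rw [one_smul]
  mul_smul a b c := by
    induction c using Quotient.inductionOn' with
    | h w =>
      change (Quotient.mk'' ((a * b) • w) : MulAction.orbitRel.Quotient G Ω) =
        Quotient.mk'' (a • b • w)
      rw [mul_smul]

lemma comm_mem (hc : IsCyclic (E ⧸ G)) (x y : E) : x * y * x⁻¹ * y⁻¹ ∈ G := by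
  rw [← QuotientGroup.eq_one_iff]
  change (x : E ⧸ G) * (y : E ⧸ G) * (x : E ⧸ G)⁻¹ * (y : E ⧸ G)⁻¹ = 1
  rw [show (x : E ⧸ G) * (y : E ⧸ G) = (y : E ⧸ G) * (x : E ⧸ G) from
    (@IsCyclic.commGroup _ _ hc).mul_comm _ _, mul_inv_cancel_right, mul_inv_cancel]

lemma SS_abel (hc : IsCyclic (E ⧸ G)) (e : E) (w : Ω) : SS G (e • w) = SS G w := by
  have key : ∀ (e : E) (w : Ω), SS G w ≤ SS G (e • w) := by
    intro e w x hx
    rw [mem_SS] at hx ⊢
    obtain ⟨g, hg, h⟩ := hx
    have hk := comm_mem hc x e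
    refine ⟨(x * e * x⁻¹ * e⁻¹ * (e * g⁻¹ * e⁻¹))⁻¹,
      G.inv_mem (G.mul_mem hk (hG.conj_mem _ (G.inv_mem hg) e)), ?_⟩
    rw [smul_smul]
    have h1 : (x * e * x⁻¹ * e⁻¹ * (e * g⁻¹ * e⁻¹))⁻¹ * x * e = e * (g * x) := by group
    rw [h1, mul_smul, h]
  refine le_antisymm ?_ (key e w)
  have h1 := key e⁻¹ (e • w)
  rwa [inv_smul_smul] at h1

/-- from the fixed orbits to the exact stabilisers -/
theorem exact_of_fixed (hc : IsCyclic (E ⧸ G))
    (h : ∀ e : E, cntS G Ω (fun S => e ∈ S) = cntS G Ω' (fun S => e ∈ S)) (T : Subgroup E) :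
    cntS G Ω (fun S => S = T) = cntS G Ω' (fun S => S = T) := by
  have : Fintype (Subgroup E) := Fintype.ofFinite _
  have hsum : ∀ (Φ : Type) [MulAction E Φ] [Finite Φ] (e : E), cntS G Φ (fun S => e ∈ S) =
      ∑ T' ∈ Finset.univ.filter (fun T' : Subgroup E => e ∈ T'), cntS G Φ (fun S => S = T') := by
    intro Φ _ _ e
    have : Fintype (MulAction.orbitRel.Quotient G Φ) := Fintype.ofFinite _
    unfold cntS
    simp only [Nat.card_eq_fintype_card, Fintype.card_subtype]
    rw [Finset.card_eq_sum_card_fiberwise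
      (f := fun c : MulAction.orbitRel.Quotient G Φ => SS G c.out)
      (t := Finset.univ.filter (fun T' : Subgroup E => e ∈ T'))]
    · refine Finset.sum_congr rfl fun T' hT' => ?_
      rw [Finset.mem_filter] at hT'
      congr 1
      ext c
      rw [Finset.mem_filter, Finset.mem_filter, Finset.mem_filter]
      constructor
      · rintro ⟨-, h2⟩
        exact ⟨Finset.mem_univ _, h2⟩
      · rintro ⟨-, h2⟩
        exact ⟨⟨Finset.mem_univ _, by rw [h2]; exact hT'.2⟩, h2⟩
    · intro c hc
      rw [Finset.mem_coe, Finset.mem_filter] at hc ⊢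
      exact ⟨Finset.mem_univ _, hc.2⟩
  have hzero : ∀ (Φ : Type) [MulAction E Φ] [Finite Φ] (T : Subgroup E), ¬ G ≤ T →
      cntS G Φ (fun S => S = T) = 0 := by
    intro Φ _ _ T hT
    unfold cntS
    rw [Nat.card_eq_zero]
    left
    exact ⟨fun c => hT (c.2 ▸ G_le_SS _)⟩
  obtain ⟨n, hn⟩ : ∃ n, n = Nat.card E - Nat.card T := ⟨_, rfl⟩
  induction n using Nat.strong_induction_on generalizing T with
  | _ n ih =>
    by_cases hGT : G ≤ T
    · have h1 : IsCyclic (T.map (QuotientGroup.mk' G)) := inferInstance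
      obtain ⟨v, hv⟩ := (Subgroup.isCyclic_iff_exists_zpowers_eq_top _).mp h1
      obtain ⟨e, rfl⟩ := QuotientGroup.mk_surjective v
      have hT : ∀ T' : Subgroup E, G ≤ T' → e ∈ T' → T ≤ T' := by
        intro T' hGT' he x hx
        have h2 : ((x : E) : E ⧸ G) ∈ Subgroup.zpowers (e : E ⧸ G) := by
          rw [hv]
          exact ⟨x, hx, rfl⟩
        obtain ⟨k, hk⟩ := Subgroup.mem_zpowers_iff.mp h2
        have h3 : x * (e ^ k)⁻¹ ∈ G := by
          rw [coset_iff, ← hk]
          rfl
        have h4 := T'.mul_mem (hGT' h3) (T'.zpow_mem he k)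
        rwa [inv_mul_cancel_right] at h4
      have heT : e ∈ T := by
        have h2 : (e : E ⧸ G) ∈ T.map (QuotientGroup.mk' G) := by
          rw [← hv]
          exact Subgroup.mem_zpowers _
        obtain ⟨x, hx, hxe⟩ := h2
        have h3 : x * e⁻¹ ∈ G := coset_iff.mpr hxe
        have h4 := T.mul_mem (T.inv_mem (hGT h3)) hx
        have h5 : (x * e⁻¹)⁻¹ * x = e := by group
        rwa [h5] at h4
      have h2 := h e
      rw [hsum Ω e, hsum Ω' e] at h2
      have hmem : T ∈ Finset.univ.filter (fun T' : Subgroup E => e ∈ T') :=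
        Finset.mem_filter.mpr ⟨Finset.mem_univ _, heT⟩
      rw [← Finset.add_sum_erase _ _ hmem, ← Finset.add_sum_erase _ _ hmem] at h2
      have h3 : ∑ T' ∈ (Finset.univ.filter (fun T' : Subgroup E => e ∈ T')).erase T,
          cntS G Ω (fun S => S = T') =
          ∑ T' ∈ (Finset.univ.filter (fun T' : Subgroup E => e ∈ T')).erase T,
            cntS G Ω' (fun S => S = T') := by
        refine Finset.sum_congr rfl fun T' hT' => ?_
        rw [Finset.mem_erase, Finset.mem_filter] at hT'
        by_cases hGT' : G ≤ T'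
        · have h4 : T < T' := lt_of_le_of_ne (hT T' hGT' hT'.2.2) (Ne.symm hT'.1)
          have h5 : Nat.card T < Nat.card T' := by
            by_contra h6
            exact h4.ne (Subgroup.eq_of_le_of_card_ge h4.le (not_lt.mp h6))
          have h6 : Nat.card T' ≤ Nat.card E := Subgroup.card_le_card_group T'
          exact ih (Nat.card E - Nat.card T') (by omega) T' rfl
        · rw [hzero Ω T' hGT', hzero Ω' T' hGT']
      rw [h3] at h2
      exact Nat.add_right_cancel h2
    · rw [hzero Ω T hGT, hzero Ω' T hGT]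

/-- **The equivariant bijection.** -/
theorem bij_of_fixed (hc : IsCyclic (E ⧸ G))
    (h : ∀ e : E, fixedOrbits G Ω e = fixedOrbits G Ω' e) : EquivariantBijection G Ω Ω' := by
  let iX : MulAction E (MulAction.orbitRel.Quotient G Ω) := qAct
  let iY : MulAction E (MulAction.orbitRel.Quotient G Ω') := qAct
  have hsm : ∀ (e : E) (w : Ω), e • (Quotient.mk'' w : MulAction.orbitRel.Quotient G Ω) =
      Quotient.mk'' (e • w) := fun _ _ => rfl
  have hsm' : ∀ (e : E) (w : Ω'), e • (Quotient.mk'' w : MulAction.orbitRel.Quotient G Ω') =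
      Quotient.mk'' (e • w) := fun _ _ => rfl
  have hst : ∀ c : MulAction.orbitRel.Quotient G Ω, MulAction.stabilizer E c = SS G c.out := by
    intro c
    ext e
    rw [MulAction.mem_stabilizer_iff, ← fixed_iff, ← hsm, out_mk]
  have hst' : ∀ c : MulAction.orbitRel.Quotient G Ω', MulAction.stabilizer E c = SS G c.out := by
    intro c
    ext e
    rw [MulAction.mem_stabilizer_iff, ← fixed_iff, ← hsm', out_mk]
  obtain ⟨f, hf, -⟩ := Pool.Agent.Q100.EQ.exists_equivariant (A := E)
    (fun c : MulAction.orbitRel.Quotient G Ω => SS G c.out)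
    (fun c : MulAction.orbitRel.Quotient G Ω' => SS G c.out)
    (by
      intro a c
      have h1 : a • c = Quotient.mk'' (a • c.out) := by rw [← hsm, out_mk]
      rw [h1, SS_out, SS_abel hc])
    (by
      intro a c
      have h1 : a • c = Quotient.mk'' (a • c.out) := by rw [← hsm', out_mk]
      rw [h1, SS_out, SS_abel hc])
    (fun c c' h1 => by rw [hst, hst']; exact h1)
    (fun T => exact_of_fixed hc (fun e => by rw [← fixed_eq, ← fixed_eq, h]) T)
  refine ⟨f, fun e w w' hw => ?_⟩
  rw [← hsm, hf, hw, hsm']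

/-- the converse -/
theorem fixed_of_bij (h : EquivariantBijection G Ω Ω') (e : E) :
    fixedOrbits G Ω e = fixedOrbits G Ω' e := by
  obtain ⟨f, hf⟩ := h
  rw [fixed_eq, fixed_eq]
  unfold cntS
  refine Nat.card_congr (Equiv.subtypeEquiv f fun c => ?_)
  change e ∈ SS G c.out ↔ e ∈ SS G (f c).out
  rw [← fixed_iff, ← fixed_iff]
  have h1 := hf e c.out (f c).out (by rw [out_mk, out_mk])
  rw [out_mk, out_mk, ← h1]
  exact (f.injective.eq_iff).symm

/-- **Sums over the pairs.** -/
theorem pairs_iff (hc : IsCyclic (E ⧸ G)) :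
    (∀ M : Subgroup E, G ≤ M → PP G Ω M = PP G Ω' M) ↔
      ∀ e : E, fixedOrbits G Ω e = fixedOrbits G Ω' e := by
  have hgen : ∀ (Φ : Type) [MulAction E Φ] [Finite Φ] {x y g : E},
      Subgroup.closure ({(x : E ⧸ G), (y : E ⧸ G)} : Set (E ⧸ G)) = Subgroup.zpowers (g : E ⧸ G) →
      cntS G Φ (fun S => x ∈ S ∧ y ∈ S) = cntS G Φ (fun S => g ∈ S) := by
    intro Φ _ _ x y g hg
    unfold cntS
    exact Nat.card_congr (Equiv.subtypeEquivRight fun c => mem_gen hg (G_le_SS _))
  constructor
  · intro h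
    have key : ∀ (n : ℕ) (e : E), orderOf (e : E ⧸ G) = n →
        cntS G Ω (fun S => e ∈ S) = cntS G Ω' (fun S => e ∈ S) := by
      intro n
      induction n using Nat.strong_induction_on with
      | _ n ih =>
        intro e he
        let M : Subgroup E := (Subgroup.zpowers (e : E ⧸ G)).comap (QuotientGroup.mk' G)
        have hGM : G ≤ M := by
          intro x hx
          change (x : E ⧸ G) ∈ Subgroup.zpowers (e : E ⧸ G)
          rw [(QuotientGroup.eq_one_iff x).mpr hx]
          exact Subgroup.one_mem _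
        have heM : e ∈ M := Subgroup.mem_zpowers _
        have hM := h M hGM
        have := Fintype.ofFinite M
        unfold PP at hM
        rw [finsum_eq_sum_of_fintype, finsum_eq_sum_of_fintype] at hM
        set D : ℤ := (cntS G Ω (fun S => e ∈ S) : ℤ) - (cntS G Ω' (fun S => e ∈ S) : ℤ) with hD
        have hterm : ∀ q : M × M,
            (cntS G Ω (fun S => (q.1 : E) ∈ S ∧ (q.2 : E) ∈ S) : ℤ) -
            (cntS G Ω' (fun S => (q.1 : E) ∈ S ∧ (q.2 : E) ∈ S) : ℤ) =
            if Subgroup.closure ({((q.1 : E) : E ⧸ G), ((q.2 : E) : E ⧸ G)} : Set (E ⧸ G)) =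
              Subgroup.zpowers (e : E ⧸ G) then D else 0 := by
          intro q
          by_cases hq : Subgroup.closure ({((q.1 : E) : E ⧸ G), ((q.2 : E) : E ⧸ G)} :
              Set (E ⧸ G)) = Subgroup.zpowers (e : E ⧸ G)
          · rw [if_pos hq, hgen Ω hq, hgen Ω' hq]
          · rw [if_neg hq]
            obtain ⟨g, hg⟩ := exists_gen hc (q.1 : E) (q.2 : E)
            rw [hgen Ω hg, hgen Ω' hg]
            have h1 : Subgroup.zpowers (g : E ⧸ G) < Subgroup.zpowers (e : E ⧸ G) := by
              refine lt_of_le_of_ne ?_ (fun h2 => hq (hg.trans h2))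
              rw [← hg, Subgroup.closure_le, Set.insert_subset_iff, Set.singleton_subset_iff]
              exact ⟨q.1.2, q.2.2⟩
            have h2 : orderOf (g : E ⧸ G) < n := by
              rw [← he, ← Nat.card_zpowers, ← Nat.card_zpowers]
              by_contra h3
              exact h1.ne (Subgroup.eq_of_le_of_card_ge h1.le (not_lt.mp h3))
            rw [ih _ h2 g rfl, sub_self]
        have hsum : ∑ q : M × M, ((cntS G Ω (fun S => (q.1 : E) ∈ S ∧ (q.2 : E) ∈ S) : ℤ) -
            (cntS G Ω' (fun S => (q.1 : E) ∈ S ∧ (q.2 : E) ∈ S) : ℤ)) = 0 := by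
          rw [Finset.sum_sub_distrib, sub_eq_zero]
          exact_mod_cast hM
        rw [Finset.sum_congr rfl (fun q _ => hterm q), ← Finset.sum_filter, Finset.sum_const,
          nsmul_eq_mul] at hsum
        have hpos : 0 < (Finset.univ.filter (fun q : M × M =>
            Subgroup.closure ({((q.1 : E) : E ⧸ G), ((q.2 : E) : E ⧸ G)} : Set (E ⧸ G)) =
              Subgroup.zpowers (e : E ⧸ G))).card := by
          rw [Finset.card_pos]
          refine ⟨(⟨e, heM⟩, ⟨e, heM⟩), Finset.mem_filter.mpr ⟨Finset.mem_univ _, ?_⟩⟩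
          dsimp only
          rw [Set.pair_eq_singleton, Subgroup.zpowers_eq_closure]
        rcases mul_eq_zero.mp hsum with h3 | h3
        · exact absurd (by exact_mod_cast h3) hpos.ne'
        · rw [hD, sub_eq_zero] at h3
          exact_mod_cast h3
    intro e
    rw [fixed_eq, fixed_eq]
    exact key _ e rfl
  · intro h M _
    unfold PP
    refine finsum_congr fun q => ?_
    obtain ⟨g, hg⟩ := exists_gen hc (q.1 : E) (q.2 : E)
    rw [hgen Ω hg, hgen Ω' hg, ← fixed_eq, ← fixed_eq, h]

end Pool.Agent.Q100.EW
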