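import Pool.Agent.Q100.EW.Act
import Pool.Agent.Q100.EQ.Ind
import Pool.Agent.Q100.CQ.Phi

set_option autoImplicit false
set_option linter.unusedSectionVars false

/-!
# The weights of a group and of a normal subgroup with cyclic quotient of order prime to `p`
-/

open scoped Classical BigOperators
open Pool.Agent.Helper884.IC
open Pool.Agent.Y63.AWC (irr_comp IsIrreducibleCharacter loc numWeights card_mul_numWeights
  numDefectZero numDefectZero_eq)
open Pool.Agent.Q100.CQ Pool.Agent.Q100.EQ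

noncomputable section

namespace Pool.Agent.Q100.EW

/-- the normalizer -/
abbrev NQ {H : Type} [Group H] (Q : Subgroup H) : Subgroup H := Subgroup.normalizer (Q : Set H)

/-- the subgroup in its normalizer -/
abbrev QN {H : Type} [Group H] (Q : Subgroup H) : Subgroup (NQ Q) := Q.subgroupOf (NQ Q)

/-- `(Q, δ)` is a `p`-weight of `H`: `Q` is a `p`-subgroup and `δ` is an irreducible character of
`N_H(Q)/Q` of `p`-defect zero, seen as a function on `H` that vanishes outside `N_H(Q)`. -/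
structure IsWeight (p : ℕ) {H : Type} [Group H] (Q : Subgroup H) (δ : H → ℂ) : Prop where
  isPGroup : IsPGroup p Q
  zero : ∀ x : H, x ∉ Subgroup.normalizer (Q : Set H) → δ x = 0
  char : ∃ θ : (Subgroup.normalizer (Q : Set H) ⧸ Q.subgroupOf (Subgroup.normalizer (Q : Set H))) → ℂ,
    IsIrreducibleCharacter θ ∧
    (∃ n : ℕ, θ 1 = (n : ℂ) ∧ n.factorization p = (Nat.card (Subgroup.normalizer (Q : Set H) ⧸
      Q.subgroupOf (Subgroup.normalizer (Q : Set H)))).factorization p) ∧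
    ∀ x : Subgroup.normalizer (Q : Set H), δ x = θ (QuotientGroup.mk x)

section

variable {K M : Type} [Group K] [Group M] [Finite K] [Finite M] {ι : K →* M}

lemma mem_map_iff (hι : Function.Injective ι) {Q : Subgroup K} {k : K} : ι k ∈ Q.map ι ↔ k ∈ Q := by
  constructor
  · rintro ⟨q, hq, h⟩
    rwa [← hι h]
  · exact fun h => ⟨k, h, rfl⟩

lemma norm_iff (hι : Function.Injective ι) {Q : Subgroup K} {k : K} :
    ι k ∈ NQ (Q.map ι) ↔ k ∈ NQ Q := by
  rw [Subgroup.mem_normalizer_iff, Subgroup.mem_normalizer_iff]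
  constructor
  · intro h x
    have h1 := h (ι x)
    rw [mem_map_iff hι, ← map_inv, ← map_mul, ← map_mul, mem_map_iff hι] at h1
    exact h1
  · intro h y
    constructor
    · rintro ⟨x, hx, rfl⟩
      exact ⟨k * x * k⁻¹, (h x).mp hx, by simp⟩
    · rintro ⟨x, hx, hxy⟩
      refine ⟨k⁻¹ * x * k, (h _).mpr ?_, ?_⟩
      · have : k * (k⁻¹ * x * k) * k⁻¹ = x := by group
        rw [this]
        exact hx
      · rw [map_mul, map_mul, map_inv]
        change (ι k)⁻¹ * ι x * ι k = y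
        have h2 : ι x = ι k * y * (ι k)⁻¹ := hxy
        rw [h2]
        group

/-- the inclusion of the normalizers -/
def iN (hι : Function.Injective ι) (Q : Subgroup K) : NQ Q →* NQ (Q.map ι) where
  toFun k := ⟨ι k.1, (norm_iff hι).mpr k.2⟩
  map_one' := Subtype.ext (map_one ι)
  map_mul' _ _ := Subtype.ext (map_mul ι _ _)

/-- the inclusion of the quotients -/
def jj (hι : Function.Injective ι) (Q : Subgroup K) : NQ Q ⧸ QN Q →* NQ (Q.map ι) ⧸ QN (Q.map ι) :=
  QuotientGroup.map _ _ (iN hι Q) (fun k hk => by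
    rw [Subgroup.mem_comap, Subgroup.mem_subgroupOf]
    exact ⟨k.1, hk, rfl⟩)

lemma jj_mk (hι : Function.Injective ι) (Q : Subgroup K) (k : NQ Q) :
    jj hι Q (QuotientGroup.mk k) = QuotientGroup.mk (iN hι Q k) := rfl

lemma jj_inj (hι : Function.Injective ι) (Q : Subgroup K) : Function.Injective (jj hι Q) := by
  rw [injective_iff_map_eq_one]
  intro y hy
  obtain ⟨k, rfl⟩ := QuotientGroup.mk_surjective y
  rw [jj_mk, QuotientGroup.eq_one_iff, Subgroup.mem_subgroupOf] at hy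
  rw [QuotientGroup.eq_one_iff, Subgroup.mem_subgroupOf]
  exact (mem_map_iff hι).mp hy

/-- the part of the normalizer in the image -/
def AA (ι : K →* M) (Q : Subgroup K) : Subgroup (NQ (Q.map ι)) := ι.range.subgroupOf _

lemma jj_range (hι : Function.Injective ι) (Q : Subgroup K) :
    (jj hι Q).range = (AA ι Q).map (QuotientGroup.mk' (QN (Q.map ι))) := by
  ext x
  constructor
  · rintro ⟨y, rfl⟩
    obtain ⟨k, rfl⟩ := QuotientGroup.mk_surjective y
    exact ⟨iN hι Q k, ⟨k.1, rfl⟩, rfl⟩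
  · rintro ⟨m, ⟨k, hk⟩, rfl⟩
    have hk' : ι k = m.1 := hk
    have h1 : k ∈ NQ Q := (norm_iff hι).mp (by rw [hk']; exact m.2)
    refine ⟨QuotientGroup.mk ⟨k, h1⟩, ?_⟩
    rw [jj_mk]
    congr 1
    exact Subtype.ext hk'

variable [hr : ι.range.Normal]

lemma AA_normal (Q : Subgroup K) : (AA ι Q).Normal := by
  unfold AA
  infer_instance

instance range_normal (hι : Function.Injective ι) (Q : Subgroup K) : (jj hι Q).range.Normal := by
  rw [jj_range]
  exact (AA_normal Q).map _ (QuotientGroup.mk'_surjective _)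

lemma range_index (hι : Function.Injective ι) (Q : Subgroup K) : (jj hι Q).range.index ∣ ι.range.index := by
  rw [jj_range]
  refine (Subgroup.index_map_dvd _ (QuotientGroup.mk'_surjective _)).trans ?_
  exact Subgroup.relIndex_dvd_index_of_normal _ _

lemma range_cyclic (hc : IsCyclic (M ⧸ ι.range)) (hι : Function.Injective ι) (Q : Subgroup K) :
    IsCyclic ((NQ (Q.map ι) ⧸ QN (Q.map ι)) ⧸ (jj hι Q).range) := by
  have := AA_normal (ι := ι) Q
  have h1 : IsCyclic (NQ (Q.map ι) ⧸ AA ι Q) := cyc_sub hc _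
  let φ : NQ (Q.map ι) ⧸ AA ι Q →* (NQ (Q.map ι) ⧸ QN (Q.map ι)) ⧸ (jj hι Q).range :=
    QuotientGroup.map _ _ (QuotientGroup.mk' (QN (Q.map ι))) (by
      rw [jj_range]
      exact Subgroup.le_comap_map _ _)
  refine isCyclic_of_surjective φ ?_
  intro y
  obtain ⟨x, rfl⟩ := QuotientGroup.mk_surjective y
  obtain ⟨m, rfl⟩ := QuotientGroup.mk_surjective x
  exact ⟨QuotientGroup.mk m, rfl⟩

variable {p : ℕ} [hp : Fact p.Prime]

/-- the defect zero characters above those of the normal subgroup -/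
lemma ov_dzf {X : Type} [Group X] [Finite X] {N : Subgroup X} [N.Normal] [Fintype X] [Fintype N]
    (hc : IsCyclic (X ⧸ N)) (hpN : ¬ p ∣ N.index) : ov N (dzf p N) = dzf p X := by
  have hr' : N.subtype.range = N := N.range_subtype
  have hn : N.subtype.range.Normal := by rw [hr']; infer_instance
  have hab : ∀ x y : X, x * y * x⁻¹ * y⁻¹ ∈ N.subtype.range := by
    intro x y
    rw [hr', ← QuotientGroup.eq_one_iff]
    change (x : X ⧸ N) * (y : X ⧸ N) * (x : X ⧸ N)⁻¹ * (y : X ⧸ N)⁻¹ = 1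
    rw [show (x : X ⧸ N) * (y : X ⧸ N) = (y : X ⧸ N) * (x : X ⧸ N) from
      (@IsCyclic.commGroup _ _ hc).mul_comm _ _, mul_inv_cancel_right, mul_inv_cancel]
  have hq : ¬ p ∣ Nat.card (X ⧸ N.subtype.range) := by
    have : Nat.card (X ⧸ N.subtype.range) = N.index := by
      change N.subtype.range.index = N.index
      rw [hr']
    rw [this]
    exact hpN
  ext χ
  unfold ov
  rw [Finset.mem_filter, mem_Irr, mem_dzf]
  constructor
  · rintro ⟨h1, θ, h2, h3⟩
    rw [mem_dzf] at h2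
    exact ⟨h1, (dz_iff (cj_sub N) hab hq h1 h2.1 h3).mpr h2.2⟩
  · rintro ⟨h1, h2⟩
    refine ⟨h1, ?_⟩
    by_contra hcon
    push Not at hcon
    have h3 : ∀ θ : N → ℂ, IsIrrChar θ → mlt N.subtype θ χ = 0 := by
      intro θ hθ
      by_contra h4
      exact h4 (hcon θ (mem_dzf.mpr ⟨hθ, (dz_iff (cj_sub N) hab hq h1 hθ h4).mp h2⟩))
    have h4 := SS_all (ι := N.subtype) χ (res_class (cj_sub N) h1.isClass)
    have h5 : SS' N.subtype (Irr N) χ = 0 := by
      unfold SS'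
      exact Finset.sum_eq_zero fun θ hθ => by rw [h3 θ (mem_Irr.mp hθ), mul_zero]
    rw [h5] at h4
    exact Pool.Agent.Y63.AWC.one_ne h1 h4.symm

theorem loc_eq (hc : IsCyclic (M ⧸ ι.range)) (hpM : ¬ p ∣ ι.range.index) (hι : Function.Injective ι)
    (Q : Subgroup K) [Fintype (NQ (Q.map ι) ⧸ QN (Q.map ι))] [Fintype (jj hι Q).range] :
    Nat.card (jj hι Q).range * Nat.card (NQ (Q.map ι) ⧸ QN (Q.map ι)) * loc p (Q.map ι) =
      ∑ θ ∈ dzf p (jj hι Q).range, Nat.card (st (jj hι Q).range θ) ^ 2 := by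
  have hpN : ¬ p ∣ (jj hι Q).range.index := fun h => hpM (h.trans (range_index hι Q))
  have hcyc := range_cyclic hc hι Q
  rw [← count_ov hcyc dzf_sub dzf_stab, ov_dzf hcyc hpN]
  congr 1
  unfold loc
  rw [numDefectZero_eq]
  rfl

section fiber

variable (hι : Function.Injective ι) (Q : Subgroup K)

/-- the isomorphism of the quotient with the image -/
def eY : NQ Q ⧸ QN Q ≃* (jj hι Q).range := MonoidHom.ofInjective (jj_inj hι Q)

lemma eY_coe (y : NQ Q ⧸ QN Q) : ((eY hι Q y : (jj hι Q).range) : NQ (Q.map ι) ⧸ QN (Q.map ι)) =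
    jj hι Q y := rfl

/-- the function on `K` of a function on the image -/
def dl (θ : (jj hι Q).range → ℂ) (k : K) : ℂ :=
  if h : k ∈ NQ Q then θ (eY hι Q (QuotientGroup.mk ⟨k, h⟩)) else 0

lemma dl_pos {θ : (jj hι Q).range → ℂ} {k : K} (h : k ∈ NQ Q) :
    dl hι Q θ k = θ (eY hι Q (QuotientGroup.mk ⟨k, h⟩)) := dif_pos h

lemma dl_neg {θ : (jj hι Q).range → ℂ} {k : K} (h : k ∉ NQ Q) : dl hι Q θ k = 0 := dif_neg h

lemma dl_weight (hQ : IsPGroup p Q) [Fintype (jj hι Q).range] {θ : (jj hι Q).range → ℂ}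
    (hθ : θ ∈ dzf p (jj hι Q).range) : IsWeight p Q (dl hι Q θ) := by
  rw [mem_dzf] at hθ
  obtain ⟨h1, n, h2, h3⟩ := hθ
  refine ⟨hQ, fun x hx => dl_neg hι Q hx, fun y => θ (eY hι Q y), irr_comp (eY hι Q) h1,
    ⟨n, ?_, ?_⟩, fun x => dl_pos hι Q x.2⟩
  · change θ (eY hι Q 1) = n
    rw [map_one]
    exact h2
  · rw [h3, Nat.card_congr (eY hι Q).toEquiv]

lemma dl_inj : Function.Injective (dl hι Q) := by
  intro θ θ' h
  funext y
  obtain ⟨z, rfl⟩ := (eY hι Q).surjective y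
  obtain ⟨k, rfl⟩ := QuotientGroup.mk_surjective z
  have h1 := congrFun h k.1
  rwa [dl_pos hι Q k.2, dl_pos hι Q k.2] at h1

lemma dl_surj [Fintype (jj hι Q).range] {δ : K → ℂ} (h : IsWeight p Q δ) :
    ∃ θ ∈ dzf p (jj hι Q).range, dl hι Q θ = δ := by
  obtain ⟨hQ, h0, θ, h1, ⟨n, h2, h3⟩, h4⟩ := h
  refine ⟨fun y => θ ((eY hι Q).symm y), ?_, ?_⟩
  · rw [mem_dzf]
    refine ⟨irr_comp (eY hι Q).symm h1, n, ?_, ?_⟩
    · change θ ((eY hι Q).symm 1) = n
      rw [map_one]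
      exact h2
    · rw [h3, Nat.card_congr (eY hι Q).toEquiv]
  · funext k
    by_cases hk : k ∈ NQ Q
    · rw [dl_pos hι Q hk, MulEquiv.symm_apply_apply]
      exact (h4 ⟨k, hk⟩).symm
    · rw [dl_neg hι Q hk, h0 k hk]

variable {α : M → K ≃* K} (hα : ∀ m x, ι (α m x) = m * ι x * m⁻¹)

include hα hι in
lemma map_iff {m : M} : Q.map (α m).toMonoidHom = Q ↔ m ∈ NQ (Q.map ι) := by
  constructor
  · intro h
    rw [Subgroup.mem_normalizer_iff]
    intro y
    constructor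
    · rintro ⟨q, hq, rfl⟩
      rw [← hα]
      refine ⟨α m q, ?_, rfl⟩
      have : α m q ∈ Q.map (α m).toMonoidHom := ⟨q, hq, rfl⟩
      rw [h] at this
      exact this
    · rintro ⟨q, hq, hqy⟩
      have h1 : q ∈ Q.map (α m).toMonoidHom := by rw [h]; exact hq
      obtain ⟨q', hq', hqq⟩ := h1
      refine ⟨q', hq', ?_⟩
      have h2 : ι (α m q') = m * ι q' * m⁻¹ := hα m q'
      have h3 : α m q' = q := hqq
      rw [h3] at h2
      have h4 : m * ι q' * m⁻¹ = m * y * m⁻¹ := h2.symm.trans hqy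
      exact mul_left_cancel (mul_right_cancel h4)
  · intro h
    rw [Subgroup.mem_normalizer_iff] at h
    ext k
    constructor
    · rintro ⟨q, hq, rfl⟩
      have h1 := (h (ι q)).mp ⟨q, hq, rfl⟩
      rw [← hα] at h1
      exact (mem_map_iff hι).mp h1
    · intro hk
      have h1 : m⁻¹ * ι k * m ∈ Q.map ι := by
        rw [h]
        have : m * (m⁻¹ * ι k * m) * m⁻¹ = ι k := by group
        rw [this]
        exact ⟨k, hk, rfl⟩
      obtain ⟨q, hq, hqk⟩ := h1
      refine ⟨q, hq, hι ?_⟩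
      change ι (α m q) = ι k
      rw [hα, hqk]
      group

include hα hι in
lemma norm_alpha {m : M} (hm : m ∈ NQ (Q.map ι)) {k : K} : α m k ∈ NQ Q ↔ k ∈ NQ Q := by
  rw [← norm_iff hι, ← norm_iff (k := k) hι, hα]
  constructor
  · intro h
    have h1 := mul_mem (mul_mem (inv_mem hm) h) hm
    have h2 : m⁻¹ * (m * ι k * m⁻¹) * m = ι k := by group
    rwa [h2] at h1
  · intro h
    exact mul_mem (mul_mem hm h) (inv_mem hm)

include hα in
lemma conj_mk {m : M} (hm : m ∈ NQ (Q.map ι)) {k : K} (hk : k ∈ NQ Q) (hk' : α m k ∈ NQ Q) :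
    cjN (jj hι Q).range (QuotientGroup.mk ⟨m, hm⟩) (eY hι Q (QuotientGroup.mk ⟨k, hk⟩)) =
      eY hι Q (QuotientGroup.mk ⟨α m k, hk'⟩) := by
  apply Subtype.ext
  rw [eY_coe, jj_mk]
  change (QuotientGroup.mk ⟨m, hm⟩ : NQ (Q.map ι) ⧸ QN (Q.map ι)) *
    ((eY hι Q (QuotientGroup.mk ⟨k, hk⟩) : (jj hι Q).range) : NQ (Q.map ι) ⧸ QN (Q.map ι)) *
    (QuotientGroup.mk ⟨m, hm⟩)⁻¹ = _
  rw [eY_coe, jj_mk, ← QuotientGroup.mk_inv, ← QuotientGroup.mk_mul, ← QuotientGroup.mk_mul]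
  congr 1
  apply Subtype.ext
  change m * ι k * m⁻¹ = ι (α m k)
  rw [hα]

include hα in
lemma stab_iff {m : M} (hm : m ∈ NQ (Q.map ι)) (θ : (jj hι Q).range → ℂ) :
    (∀ k, dl hι Q θ (α m k) = dl hι Q θ k) ↔
      (QuotientGroup.mk ⟨m, hm⟩ : NQ (Q.map ι) ⧸ QN (Q.map ι)) ∈ st (jj hι Q).range θ := by
  rw [mem_st]
  constructor
  · intro h x
    obtain ⟨z, rfl⟩ := (eY hι Q).surjective x
    obtain ⟨k, rfl⟩ := QuotientGroup.mk_surjective z
    have hk' := (norm_alpha hι Q hα hm).mpr k.2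
    have h1 := h k.1
    rw [dl_pos hι Q hk', dl_pos hι Q k.2] at h1
    rw [← h1]
    congr 1
    exact conj_mk hι Q hα hm k.2 hk'
  · intro h k
    by_cases hk : k ∈ NQ Q
    · have hk' := (norm_alpha hι Q hα hm).mpr hk
      rw [dl_pos hι Q hk, dl_pos hι Q hk', ← h (eY hι Q (QuotientGroup.mk ⟨k, hk⟩))]
      congr 1
      exact (conj_mk hι Q hα hm hk hk').symm
    · rw [dl_neg hι Q hk, dl_neg hι Q (fun h1 => hk ((norm_alpha hι Q hα hm).mp h1))]

include hα in
theorem card_stM (θ : (jj hι Q).range → ℂ) :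
    Nat.card {m : M // Q.map (α m).toMonoidHom = Q ∧ ∀ k, dl hι Q θ (α m k) = dl hι Q θ k} =
      Nat.card Q * Nat.card (st (jj hι Q).range θ) := by
  set S := (st (jj hι Q).range θ).comap (QuotientGroup.mk' (QN (Q.map ι))) with hS
  have h1 : Nat.card {m : M // Q.map (α m).toMonoidHom = Q ∧
      ∀ k, dl hι Q θ (α m k) = dl hι Q θ k} = Nat.card S := by
    refine Nat.card_congr
      { toFun := fun m => ⟨⟨m.1, (map_iff hι Q hα).mp m.2.1⟩, (stab_iff hι Q hα _ θ).mp m.2.2⟩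
        invFun := fun s => ⟨s.1.1, (map_iff hι Q hα).mpr s.1.2, (stab_iff hι Q hα s.1.2 θ).mpr s.2⟩
        left_inv := fun _ => rfl
        right_inv := fun _ => rfl }
  have h2 : S.index = (st (jj hι Q).range θ).index :=
    Subgroup.index_comap_of_surjective _ (QuotientGroup.mk'_surjective _)
  have h3 := Subgroup.card_mul_index S
  have h4 := Subgroup.card_mul_index (st (jj hι Q).range θ)
  have h5 := Subgroup.card_eq_card_quotient_mul_card_subgroup (QN (Q.map ι))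
  have h6 : Nat.card (QN (Q.map ι)) = Nat.card Q := by
    rw [Nat.card_congr (Subgroup.subgroupOfEquivOfLe Subgroup.le_normalizer).toEquiv]
    exact (Nat.card_congr (Q.equivMapOfInjective ι hι).toEquiv).symm
  rw [h1]
  have h7 : 0 < (st (jj hι Q).range θ).index := Nat.pos_of_ne_zero Subgroup.index_ne_zero_of_finite
  refine Nat.eq_of_mul_eq_mul_right h7 ?_
  rw [← h2, h3, h5, h6, ← h4, h2]
  ring

lemma card_QN {H : Type} [Group H] [Finite H] (R : Subgroup H) :
    Nat.card (NQ R) = Nat.card (NQ R ⧸ QN R) * Nat.card R := by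
  rw [Subgroup.card_eq_card_quotient_mul_card_subgroup (QN R),
    Nat.card_congr (Subgroup.subgroupOfEquivOfLe (Subgroup.le_normalizer (H := R))).toEquiv]

/-- the bijection -/
theorem bij_weights (hQ : IsPGroup p Q) [Fintype (jj hι Q).range] :
    Function.Bijective (fun θ : {θ // θ ∈ dzf p (jj hι Q).range} =>
      (⟨dl hι Q θ.1, dl_weight hι Q hQ θ.2⟩ : {δ : K → ℂ // IsWeight p Q δ})) := by
  constructor
  · intro θ θ' h
    exact Subtype.ext (dl_inj hι Q (congrArg Subtype.val h))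
  · rintro ⟨δ, hδ⟩
    obtain ⟨θ, hθ, h⟩ := dl_surj hι Q hδ
    exact ⟨⟨θ, hθ⟩, Subtype.ext h⟩

include hα hι in
theorem fiber_sum (hc : IsCyclic (M ⧸ ι.range)) (hpM : ¬ p ∣ ι.range.index)
    (hQ : IsPGroup p Q) [Fintype {δ : K → ℂ // IsWeight p Q δ}] :
    ∑ δ : {δ : K → ℂ // IsWeight p Q δ}, (Nat.card {m : M // Q.map (α m).toMonoidHom = Q ∧
        ∀ k, δ.1 (α m k) = δ.1 k} : ℚ) ^ 2 / (Nat.card (NQ Q) : ℚ) =
      (Nat.card (NQ (Q.map ι)) : ℚ) * (loc p (Q.map ι) : ℚ) := by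
  have := Fintype.ofFinite (NQ (Q.map ι) ⧸ QN (Q.map ι))
  have := Fintype.ofFinite (jj hι Q).range
  rw [← (bij_weights hι Q hQ).sum_comp]
  have h1 : ∀ θ : {θ // θ ∈ dzf p (jj hι Q).range},
      (Nat.card {m : M // Q.map (α m).toMonoidHom = Q ∧
        ∀ k, dl hι Q θ.1 (α m k) = dl hι Q θ.1 k} : ℚ) ^ 2 / (Nat.card (NQ Q) : ℚ) =
      (Nat.card Q : ℚ) ^ 2 / (Nat.card (NQ Q) : ℚ) *
        (Nat.card (st (jj hι Q).range θ.1) : ℚ) ^ 2 := by
    intro θ
    rw [card_stM hι Q hα θ.1]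
    push_cast
    ring
  simp only [h1]
  rw [← Finset.mul_sum, Finset.sum_coe_sort (dzf p (jj hι Q).range)
    (fun θ => (Nat.card (st (jj hι Q).range θ) : ℚ) ^ 2)]
  have h2 : ∑ θ ∈ dzf p (jj hι Q).range, (Nat.card (st (jj hι Q).range θ) : ℚ) ^ 2 =
      (Nat.card (jj hι Q).range : ℚ) * (Nat.card (NQ (Q.map ι) ⧸ QN (Q.map ι)) : ℚ) *
        (loc p (Q.map ι) : ℚ) := by
    exact_mod_cast (loc_eq hc hpM hι Q).symm
  have h3 : (Nat.card (NQ Q) : ℚ) = (Nat.card (jj hι Q).range : ℚ) * (Nat.card Q : ℚ) := by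
    have := card_QN Q
    rw [Nat.card_congr (eY hι Q).toEquiv] at this
    exact_mod_cast this
  have h4 : (Nat.card (NQ (Q.map ι)) : ℚ) =
      (Nat.card (NQ (Q.map ι) ⧸ QN (Q.map ι)) : ℚ) * (Nat.card Q : ℚ) := by
    have := card_QN (Q.map ι)
    rw [Nat.card_congr (Q.equivMapOfInjective ι hι).toEquiv.symm] at this
    exact_mod_cast this
  have h5 : (Nat.card (jj hι Q).range : ℚ) ≠ 0 := by
    exact_mod_cast (Nat.card_pos (α := (jj hι Q).range)).ne'
  have h6 : (Nat.card Q : ℚ) ≠ 0 := by exact_mod_cast (Nat.card_pos (α := Q)).ne'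
  rw [h2, h3, h4]
  field_simp

end fiber

/-- the weights of `K` -/
abbrev Weight (p : ℕ) (K : Type) [Group K] : Type := {w : Subgroup K × (K → ℂ) // IsWeight p w.1 w.2}

/-- the weights, ordered by the subgroup -/
def weightEquiv (p : ℕ) (K : Type) [Group K] :
    Weight p K ≃ Σ Q : {Q : Subgroup K // IsPGroup p Q}, {δ : K → ℂ // IsWeight p Q.1 δ} where
  toFun w := ⟨⟨w.1.1, w.2.isPGroup⟩, ⟨w.1.2, w.2⟩⟩
  invFun s := ⟨(s.1.1, s.2.1), s.2.2⟩
  left_inv _ := rfl
  right_inv _ := rfl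

omit hr in
instance weight_finite : Finite (Weight p K) := by
  have h1 : ∀ Q : {Q : Subgroup K // IsPGroup p Q}, Finite {δ : K → ℂ // IsWeight p Q.1 δ} := by
    intro Q
    have hr' : (MonoidHom.id K).range.Normal := by
      rw [MonoidHom.range_eq_top.mpr (fun x => ⟨x, rfl⟩)]
      infer_instance
    have hid : Function.Injective (MonoidHom.id K) := fun _ _ h => h
    have := Fintype.ofFinite (jj hid Q.1).range
    exact Finite.of_surjective _ (bij_weights hid Q.1 Q.2).2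
  exact Finite.of_equiv _ (weightEquiv p K).symm

/-- the `p`-subgroups of `K` and of `M` -/
theorem bij_sub (hι : Function.Injective ι) (hpM : ¬ p ∣ ι.range.index) : Function.Bijective
    (fun Q : {Q : Subgroup K // IsPGroup p Q} =>
      (⟨Q.1.map ι, Q.2.map ι⟩ : {Q : Subgroup M // IsPGroup p Q})) := by
  constructor
  · intro Q R h
    exact Subtype.ext (Subgroup.map_injective hι (congrArg Subtype.val h))
  · rintro ⟨R, hR⟩
    have h1 : R ≤ ι.range := by
      intro x hx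
      obtain ⟨k, hk⟩ := hR ⟨x, hx⟩
      have hk' : x ^ p ^ k = 1 := congrArg Subtype.val hk
      rw [← QuotientGroup.eq_one_iff]
      have h1 : orderOf (x : M ⧸ ι.range) ∣ p ^ k := by
        apply orderOf_dvd_of_pow_eq_one
        rw [← QuotientGroup.mk_pow, hk']
        rfl
      have h2 : orderOf (x : M ⧸ ι.range) ∣ ι.range.index := orderOf_dvd_natCard _
      have h3 : Nat.Coprime (p ^ k) ι.range.index :=
        ((Nat.Prime.coprime_iff_not_dvd hp.out).mpr hpM).pow_left k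
      have h4 := Nat.dvd_gcd h1 h2
      rw [h3.gcd_eq_one] at h4
      exact orderOf_eq_one_iff.mp (Nat.dvd_one.mp h4)
    refine ⟨⟨R.comap ι, hR.comap_of_injective ι hι⟩, Subtype.ext ?_⟩
    exact Subgroup.map_comap_eq_self h1

/-- **The weights.** -/
theorem weights_main (hι : Function.Injective ι) {α : M → K ≃* K}
    (hα : ∀ m x, ι (α m x) = m * ι x * m⁻¹) (hc : IsCyclic (M ⧸ ι.range))
    (hpM : ¬ p ∣ ι.range.index) [Fintype (Weight p K)] :
    ∑ w : Weight p K, (Nat.card {m : M // w.1.1.map (α m).toMonoidHom = w.1.1 ∧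
        ∀ k, w.1.2 (α m k) = w.1.2 k} : ℚ) ^ 2 / (Nat.card (NQ w.1.1) : ℚ) =
      (Nat.card M : ℚ) * (numWeights p M : ℚ) := by
  have h1 : ∀ Q : {Q : Subgroup K // IsPGroup p Q}, Finite {δ : K → ℂ // IsWeight p Q.1 δ} := by
    intro Q
    have := Fintype.ofFinite (jj hι Q.1).range
    exact Finite.of_surjective _ (bij_weights hι Q.1 Q.2).2
  have : ∀ Q : {Q : Subgroup K // IsPGroup p Q}, Fintype {δ : K → ℂ // IsWeight p Q.1 δ} :=
    fun Q => Fintype.ofFinite _
  have : Fintype {Q : Subgroup K // IsPGroup p Q} := Fintype.ofFinite _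
  have : Fintype {Q : Subgroup M // IsPGroup p Q} := Fintype.ofFinite _
  have h0 := Fintype.sum_equiv (weightEquiv p K)
    (fun w => (Nat.card {m : M // w.1.1.map (α m).toMonoidHom = w.1.1 ∧
        ∀ k, w.1.2 (α m k) = w.1.2 k} : ℚ) ^ 2 / (Nat.card (NQ w.1.1) : ℚ))
    (fun s => (Nat.card {m : M // s.1.1.map (α m).toMonoidHom = s.1.1 ∧
        ∀ k, s.2.1 (α m k) = s.2.1 k} : ℚ) ^ 2 / (Nat.card (NQ s.1.1) : ℚ)) (fun _ => rfl)
  refine h0.trans ?_
  rw [Fintype.sum_sigma]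
  rw [Finset.sum_congr rfl (fun Q _ => fiber_sum hι Q.1 hα hc hpM Q.2)]
  have h2 := card_mul_numWeights p M
  rw [finsum_eq_sum_of_fintype, ← (bij_sub hι hpM).sum_comp] at h2
  have h3 : (Nat.card M : ℚ) * (numWeights p M : ℚ) = ((Nat.card M * numWeights p M : ℕ) : ℚ) := by
    push_cast
    rfl
  rw [h3, h2]
  push_cast
  rfl

end

end Pool.Agent.Q100.EW
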