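import Pool.Agent.Q100.EW.Reg
import Pool.Agent.Q100.EW.Wts
import Pool.Agent.Q100.EQ.Equi

set_option autoImplicit false
set_option linter.unusedSectionVars false

/-!
# Sums over pairs and fixed orbits
-/

open scoped Classical BigOperators
open Pool.Agent.Helper884.IC
open Pool.Agent.Y63.AWC (irr_comp IsIrreducibleCharacter numWeights numRegularClasses)
open Pool.Agent.Q100.IV (coset_iff)

noncomputable section

namespace Pool.Agent.Q100.EW

variable {E : Type} [Group E] [Finite E] {G : Subgroup E} [hG : G.Normal]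

section action

variable {p : ℕ} [hp : Fact p.Prime]

/-- `(Q, δ)` under an automorphism -/
lemma IsWeight.map {H : Type} [Group H] [Finite H] (a : H ≃* H) {Q : Subgroup H} {δ : H → ℂ}
    (h : IsWeight p Q δ) : IsWeight p (Q.map a.toMonoidHom) (fun x => δ (a.symm x)) := by
  have hinj : Function.Injective a.toMonoidHom := a.injective
  have hr : a.toMonoidHom.range.Normal := by
    rw [MonoidHom.range_eq_top.mpr a.surjective]
    infer_instance
  obtain ⟨h1, h2, θ, h3, ⟨n, h4, h5⟩, h6⟩ := h
  have hsurj : Function.Surjective (jj hinj Q) := by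
    intro x
    obtain ⟨m, rfl⟩ := QuotientGroup.mk_surjective x
    obtain ⟨k, hk⟩ := a.surjective m.1
    have hk' : k ∈ NQ Q := (norm_iff hinj).mp (by
      change a k ∈ _
      rw [hk]
      exact m.2)
    refine ⟨QuotientGroup.mk ⟨k, hk'⟩, ?_⟩
    rw [jj_mk]
    congr 1
    exact Subtype.ext hk
  let e := MulEquiv.ofBijective (jj hinj Q) ⟨jj_inj hinj Q, hsurj⟩
  refine ⟨h1.map _, ?_, fun x => θ (e.symm x), irr_comp e.symm h3, ⟨n, ?_, ?_⟩, ?_⟩
  · intro x hx
    apply h2
    intro hk
    apply hx
    have h7 := (norm_iff hinj (Q := Q)).mpr hk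
    change a (a.symm x) ∈ _ at h7
    rwa [MulEquiv.apply_symm_apply] at h7
  · change θ (e.symm 1) = n
    rw [map_one]
    exact h4
  · rw [h5]
    exact congrArg (fun t : ℕ => t.factorization p) (Nat.card_congr e.toEquiv)
  · intro x
    have hx' : a.symm x.1 ∈ NQ Q := (norm_iff hinj).mp (by
      change a (a.symm x.1) ∈ _
      rw [MulEquiv.apply_symm_apply]
      exact x.2)
    have h7 := h6 ⟨a.symm x.1, hx'⟩
    change δ (a.symm x.1) = _
    rw [h7]
    congr 1
    rw [MulEquiv.eq_symm_apply]
    change jj hinj Q (QuotientGroup.mk ⟨a.symm x.1, hx'⟩) = QuotientGroup.mk x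
    rw [jj_mk]
    congr 1
    exact Subtype.ext (MulEquiv.apply_symm_apply a x.1)

/-- the action of `E` on the weights of `G` -/
instance wtAct : MulAction E (Weight p G) where
  smul e w := ⟨(w.1.1.map (MulAut.conjNormal e : MulAut G).toMonoidHom,
    fun x => w.1.2 ((MulAut.conjNormal e : MulAut G).symm x)), w.2.map _⟩
  one_smul w := by
    refine Subtype.ext (Prod.ext ?_ ?_)
    · change w.1.1.map (MulAut.conjNormal (1 : E) : MulAut G).toMonoidHom = w.1.1
      rw [map_one]
      exact Subgroup.map_id _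
    · funext x
      change w.1.2 ((MulAut.conjNormal (1 : E) : MulAut G).symm x) = w.1.2 x
      rw [map_one]
      rfl
  mul_smul a b w := by
    refine Subtype.ext (Prod.ext ?_ ?_)
    · change w.1.1.map (MulAut.conjNormal (a * b) : MulAut G).toMonoidHom =
        (w.1.1.map (MulAut.conjNormal b : MulAut G).toMonoidHom).map
          (MulAut.conjNormal a : MulAut G).toMonoidHom
      rw [Subgroup.map_map, map_mul]
      rfl
    · funext x
      change w.1.2 ((MulAut.conjNormal (a * b) : MulAut G).symm x) =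
        w.1.2 ((MulAut.conjNormal b : MulAut G).symm ((MulAut.conjNormal a : MulAut G).symm x))
      rw [map_mul]
      rfl

lemma wt_fix {e : E} {w : Weight p G} : e • w = w ↔
    w.1.1.map (MulAut.conjNormal e : MulAut G).toMonoidHom = w.1.1 ∧
      ∀ k, w.1.2 ((MulAut.conjNormal e : MulAut G) k) = w.1.2 k := by
  constructor
  · intro h
    have h1 : w.1.1.map (MulAut.conjNormal e : MulAut G).toMonoidHom = w.1.1 :=
      congrArg (fun v : Weight p G => v.1.1) h
    have h2 : (fun x => w.1.2 ((MulAut.conjNormal e : MulAut G).symm x)) = w.1.2 :=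
      congrArg (fun v : Weight p G => v.1.2) h
    refine ⟨h1, fun k => ?_⟩
    have h3 := congrFun h2 ((MulAut.conjNormal e : MulAut G) k)
    rw [MulEquiv.symm_apply_apply] at h3
    exact h3.symm
  · rintro ⟨h1, h2⟩
    refine Subtype.ext (Prod.ext h1 ?_)
    funext x
    change w.1.2 ((MulAut.conjNormal e : MulAut G).symm x) = w.1.2 x
    have h3 := h2 ((MulAut.conjNormal e : MulAut G).symm x)
    rw [MulEquiv.apply_symm_apply] at h3
    exact h3.symm

lemma wt_gs (w : Weight p G) : gs G w = Nat.card (NQ w.1.1) := by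
  have hrid : (MonoidHom.id G).range.Normal := by
    rw [MonoidHom.range_eq_top.mpr (fun x => ⟨x, rfl⟩)]
    infer_instance
  unfold gs
  refine Nat.card_congr
    { toFun := fun z => ⟨⟨z.1, z.2.2⟩, ?_⟩
      invFun := fun k => ⟨k.1.1, ?_, k.1.2⟩
      left_inv := fun _ => rfl
      right_inv := fun _ => rfl }
  · have h1 : z.1 • w = w := z.2.1
    have h2 := (wt_fix.mp h1).1
    have hid : Function.Injective (MonoidHom.id G) := fun _ _ h => h
    have h3 := (map_iff (ι := MonoidHom.id G) hid w.1.1
      (α := fun m : G => (MulAut.conjNormal (m : E) : MulAut G)) (fun m x => Subtype.ext (by simp))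
      (m := ⟨z.1, z.2.2⟩)).mp h2
    rwa [Subgroup.map_id] at h3
  · change k.1.1 • w = w
    rw [wt_fix]
    have hid : Function.Injective (MonoidHom.id G) := fun _ _ h => h
    have hα : ∀ (m x : G), (MonoidHom.id G) ((MulAut.conjNormal (m : E) : MulAut G) x) =
        m * (MonoidHom.id G) x * m⁻¹ := fun m x => Subtype.ext (by simp)
    have hk' : k.1 ∈ NQ (w.1.1.map (MonoidHom.id G)) := by
      rw [Subgroup.map_id]
      exact k.2
    refine ⟨(map_iff (ι := MonoidHom.id G) hid w.1.1
      (α := fun m : G => (MulAut.conjNormal (m : E) : MulAut G)) hα (m := k.1)).mpr hk', ?_⟩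
    intro x
    obtain ⟨θ, h3, -, h6⟩ := w.2.char
    have hx := norm_alpha hid w.1.1 (α := fun m : G => (MulAut.conjNormal (m : E) : MulAut G)) hα
      hk' (k := x)
    by_cases h : x ∈ NQ w.1.1
    · have h7 := h6 ⟨x, h⟩
      have h8 := h6 ⟨_, hx.mpr h⟩
      have : Fintype (NQ w.1.1 ⧸ QN w.1.1) := Fintype.ofFinite _
      have h9 := (show IsIrrChar θ from h3).isClass (QuotientGroup.mk ⟨x, h⟩) (QuotientGroup.mk k)
      dsimp only at h7 h8
      rw [h7, h8, ← h9]
      congr 1
    · rw [w.2.zero x h, w.2.zero _ (fun h' => h (hx.mp h'))]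

/-- **The weights.** -/
theorem wt_main (hc : IsCyclic (E ⧸ G)) (hpG : ¬ p ∣ G.index) {M : Subgroup E} (hGM : G ≤ M) :
    PP G (Weight p G) M = Nat.card G * (Nat.card M * numWeights p M) := by
  have := Fintype.ofFinite (Weight p G)
  have h1 := PP_eq (G := G) (Ω := Weight p G) hGM
  let ι : G →* M := Subgroup.inclusion hGM
  have hinj : Function.Injective ι := Subgroup.inclusion_injective hGM
  have hr : ι.range = G.subgroupOf M := by
    ext x
    constructor
    · rintro ⟨w, rfl⟩
      exact w.2
    · intro hx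
      exact ⟨⟨x, hx⟩, rfl⟩
  have hn : ι.range.Normal := by
    rw [hr]
    infer_instance
  have hcyc : IsCyclic (M ⧸ ι.range) := by
    have h2 := Pool.Agent.Q100.EQ.cyc_sub hc M
    exact isCyclic_of_surjective
      (QuotientGroup.quotientMulEquivOfEq hr.symm : M ⧸ G.subgroupOf M ≃* M ⧸ ι.range).toMonoidHom
      (MulEquiv.surjective _)
  have hidx : ¬ p ∣ ι.range.index := by
    rw [hr]
    intro h
    apply hpG
    exact h.trans ⟨_, (Subgroup.relIndex_mul_index hGM).symm⟩
  have h2 := weights_main (p := p) hinj (α := fun m : M => (MulAut.conjNormal (m : E) : MulAut G))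
    (fun m x => Subtype.ext (by simp [ι])) hcyc hidx
  have h3 : ∀ w : Weight p G, (Nat.card (MulAction.stabilizer E w ⊓ M : Subgroup E) : ℚ) ^ 2 /
      (gs G w : ℚ) = (Nat.card {m : M //
        w.1.1.map ((MulAut.conjNormal (m : E) : MulAut G)).toMonoidHom = w.1.1 ∧
        ∀ k, w.1.2 ((MulAut.conjNormal (m : E) : MulAut G) k) = w.1.2 k} : ℚ) ^ 2 /
          (Nat.card (NQ w.1.1) : ℚ) := by
    intro w
    rw [wt_gs]
    congr 3
    refine Nat.card_congr
      { toFun := fun z => ⟨⟨z.1, z.2.2⟩, wt_fix.mp z.2.1⟩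
        invFun := fun m => ⟨m.1.1, wt_fix.mpr m.2, m.1.2⟩
        left_inv := fun _ => rfl
        right_inv := fun _ => rfl }
  rw [Finset.sum_congr rfl (fun w _ => h3 w), h2] at h1
  exact_mod_cast h1

end action

end Pool.Agent.Q100.EW
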