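import Pool.Agent.Q100.EW.Act
import Pool.Agent.Q100.CQ.Nf
import Pool.Agent.Q100.IV.Split2

set_option autoImplicit false
set_option linter.unusedSectionVars false

/-!
# The `p`-regular classes of a group with a cyclic quotient of order prime to `p`
-/

open scoped Classical BigOperators
open Pool.Agent.Y63.AWC (orbit_sum b01 b01_pos b01_neg b01_congr finsum_ite_eq_card
  card_mul_numRegularClasses numRegularClasses)
open Pool.Agent.Q100.IV (exists_exps coset_iff)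
open Pool.Agent.Q100.CQ (Sym Sym.gen)

noncomputable section

namespace Pool.Agent.Q100.EW

variable {E : Type} [Group E] [Finite E] {p : ℕ} [hp : Fact p.Prime]

section exps

/-- exponents -/
structure Exps (p : ℕ) (E : Type) [Group E] (γ β : ℕ) : Prop where
  reg_g : ∀ y : E, ¬ p ∣ orderOf y → y ^ γ = 1
  reg_b : ∀ y : E, ¬ p ∣ orderOf y → y ^ β = y
  el_g : ∀ y : E, (∃ k : ℕ, y ^ p ^ k = 1) → y ^ γ = y
  el_b : ∀ y : E, (∃ k : ℕ, y ^ p ^ k = 1) → y ^ β = 1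
  all_g : ∀ y : E, ∃ k : ℕ, (y ^ γ) ^ p ^ k = 1
  all_b : ∀ y : E, ¬ p ∣ orderOf (y ^ β)
  mul : ∀ y : E, y ^ β * y ^ γ = y

theorem exists_Exps (p : ℕ) [hp : Fact p.Prime] (E : Type) [Group E] [Finite E] :
    ∃ γ β : ℕ, Exps p E γ β := by
  obtain ⟨γ, β, A, M, hN, hM, h1, h2, h3, h4, h5⟩ := exists_exps hp.out
    (Nat.card_pos (α := E)).ne'
  have hco : Nat.Coprime (p ^ A) M := ((Nat.Prime.coprime_iff_not_dvd hp.out).mpr hM).pow_left A
  have hreg : ∀ y : E, ¬ p ∣ orderOf y → orderOf y ∣ M := by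
    intro y hy
    have h6 : orderOf y ∣ p ^ A * M := hN ▸ orderOf_dvd_natCard y
    have h7 : Nat.Coprime (orderOf y) (p ^ A) :=
      (((Nat.Prime.coprime_iff_not_dvd hp.out).mpr hy).symm).pow_right A
    exact h7.dvd_of_dvd_mul_left h6
  have hel : ∀ y : E, (∃ k : ℕ, y ^ p ^ k = 1) → orderOf y ∣ p ^ A := by
    rintro y ⟨k, hk⟩
    have h6 : orderOf y ∣ p ^ A * M := hN ▸ orderOf_dvd_natCard y
    have h7 : orderOf y ∣ p ^ k := orderOf_dvd_of_pow_eq_one hk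
    have h8 : Nat.Coprime (orderOf y) M :=
      Nat.Coprime.coprime_dvd_left h7 (((Nat.Prime.coprime_iff_not_dvd hp.out).mpr hM).pow_left k)
    exact h8.dvd_of_dvd_mul_right h6
  refine ⟨γ, β, ⟨?_, ?_, ?_, ?_, ?_, ?_, ?_⟩⟩
  · intro y hy
    exact orderOf_dvd_iff_pow_eq_one.mp ((hreg y hy).trans h2)
  · intro y hy
    have h6 : y ^ β = y ^ 1 := pow_eq_pow_iff_modEq.mpr (h4.of_dvd (hreg y hy))
    rwa [pow_one] at h6
  · intro y hy
    have h6 : y ^ γ = y ^ 1 := pow_eq_pow_iff_modEq.mpr (h1.of_dvd (hel y hy))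
    rwa [pow_one] at h6
  · intro y hy
    exact orderOf_dvd_iff_pow_eq_one.mp ((hel y hy).trans h3)
  · intro y
    refine ⟨A, ?_⟩
    rw [← pow_mul]
    apply orderOf_dvd_iff_pow_eq_one.mp
    refine (orderOf_dvd_natCard y).trans ?_
    rw [hN, mul_comm γ]
    exact Nat.mul_dvd_mul_left _ h2
  · intro y hy
    apply hM
    refine hy.trans (orderOf_dvd_of_pow_eq_one ?_)
    rw [← pow_mul]
    apply orderOf_dvd_iff_pow_eq_one.mp
    refine (orderOf_dvd_natCard y).trans ?_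
    rw [hN]
    exact Nat.mul_dvd_mul_right h3 _
  · intro y
    rw [← pow_add]
    have h6 : y ^ (β + γ) = y ^ 1 := by
      rw [add_comm]
      exact pow_eq_pow_iff_modEq.mpr (h5.of_dvd (orderOf_dvd_natCard y))
    rwa [pow_one] at h6

end exps

variable {G : Subgroup E} [hG : G.Normal]

/-- the triples of commuting elements: two `p`-regular elements in given cosets, a `p`-element of `G` -/
def TT (p : ℕ) (G : Subgroup E) (a b : E ⧸ G) (t : E × E × E) : Prop :=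
  (t.1 : E ⧸ G) = a ∧ (t.2.1 : E ⧸ G) = b ∧ ¬ p ∣ orderOf t.1 ∧ ¬ p ∣ orderOf t.2.1 ∧
    t.1 * t.2.1 = t.2.1 * t.1 ∧ t.2.2 ∈ G ∧ (∃ k : ℕ, t.2.2 ^ p ^ k = 1) ∧
    t.2.2 * t.1 = t.1 * t.2.2 ∧ t.2.2 * t.2.1 = t.2.1 * t.2.2

/-- their number -/
def NN (p : ℕ) (G : Subgroup E) (a b : E ⧸ G) : ℂ := (Nat.card {t : E × E × E // TT p G a b t} : ℂ)

lemma reg_mul {x y : E} (hx : ¬ p ∣ orderOf x) (hy : ¬ p ∣ orderOf y) (h : x * y = y * x) :
    ¬ p ∣ orderOf (y * x) := by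
  intro h1
  have h2 : Commute y x := h.symm
  have h3 := h1.trans h2.orderOf_mul_dvd_mul_orderOf
  rcases (hp.out.dvd_mul).mp h3 with h4 | h4
  · exact hy h4
  · exact hx h4

lemma TT_mul {a b : E ⧸ G} {x y u : E} (h : TT p G a b (x, y, u)) : TT p G a (b * a) (x, y * x, u) := by
  obtain ⟨h1, h2, h3, h4, h5, h6, h7, h8, h9⟩ := h
  dsimp only at h1 h2 h3 h4 h5 h6 h7 h8 h9
  refine ⟨h1, ?_, h3, reg_mul h3 h4 h5, ?_, h6, h7, h8, ?_⟩
  · change ((y : E ⧸ G)) * (x : E ⧸ G) = b * a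
    rw [h1, h2]
  · change x * (y * x) = y * x * x
    rw [← mul_assoc, h5]
  · change u * (y * x) = y * x * u
    rw [← mul_assoc, h9, mul_assoc, h8, mul_assoc]

lemma TT_rot {a b : E ⧸ G} {x y u : E} (h : TT p G a b (x, y, u)) : TT p G b a⁻¹ (y, x⁻¹, u) := by
  obtain ⟨h1, h2, h3, h4, h5, h6, h7, h8, h9⟩ := h
  dsimp only at h1 h2 h3 h4 h5 h6 h7 h8 h9
  refine ⟨h2, ?_, h4, ?_, ?_, h6, h7, h9, ?_⟩
  · change ((x : E ⧸ G))⁻¹ = a⁻¹
    rw [h1]
  · change ¬ p ∣ orderOf x⁻¹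
    rwa [orderOf_inv]
  · change y * x⁻¹ = x⁻¹ * y
    exact (show Commute y x from h5.symm).inv_right
  · change u * x⁻¹ = x⁻¹ * u
    exact (show Commute u x from h8).inv_right

lemma TT_mul_inv {a b : E ⧸ G} {x y u : E} (h : TT p G a (b * a) (x, y, u)) :
    TT p G a b (x, y * x⁻¹, u) := by
  obtain ⟨h1, h2, h3, h4, h5, h6, h7, h8, h9⟩ := h
  dsimp only at h1 h2 h3 h4 h5 h6 h7 h8 h9
  have hc : Commute x y := h5
  have hu : Commute u x := h8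
  have huy : Commute u y := h9
  have h3' : ¬ p ∣ orderOf x⁻¹ := by rwa [orderOf_inv]
  refine ⟨h1, ?_, h3, reg_mul h3' h4 hc.inv_left, ?_, h6, h7, h8, ?_⟩
  · change ((y : E ⧸ G)) * (x : E ⧸ G)⁻¹ = b
    rw [h1, h2, mul_inv_cancel_right]
  · exact hc.mul_right (Commute.refl x).inv_right
  · exact huy.mul_right hu.inv_right

theorem NN_sym : Sym (NN p G) where
  mul a b := by
    unfold NN
    congr 1
    refine Nat.card_congr
      { toFun := fun t => ⟨(t.1.1, t.1.2.1 * t.1.1⁻¹, t.1.2.2), ?_⟩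
        invFun := fun t => ⟨(t.1.1, t.1.2.1 * t.1.1, t.1.2.2), TT_mul t.2⟩
        left_inv := fun t => Subtype.ext (by simp)
        right_inv := fun t => Subtype.ext (by simp) }
    exact TT_mul_inv t.2
  rot a b := by
    unfold NN
    congr 1
    refine Nat.card_congr
      { toFun := fun t => ⟨(t.1.2.1⁻¹, t.1.1, t.1.2.2), ?_⟩
        invFun := fun t => ⟨(t.1.2.1, t.1.1⁻¹, t.1.2.2), TT_rot t.2⟩
        left_inv := fun t => Subtype.ext (by simp)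
        right_inv := fun t => Subtype.ext (by simp) }
    obtain ⟨⟨x, y, u⟩, h⟩ := t
    have h1 := TT_rot (TT_rot (TT_rot h))
    simpa using h1

/-- the pairs -/
def QQ (p : ℕ) (G : Subgroup E) (a b : E ⧸ G) (q : E × E) : Prop :=
  (q.1 : E ⧸ G) = a ∧ (q.2 : E ⧸ G) = b ∧ ¬ p ∣ orderOf q.1 ∧ q.1 * q.2 = q.2 * q.1

theorem NN_eq (hpG : ¬ p ∣ G.index) (a b : E ⧸ G) :
    NN p G a b = (Nat.card {q : E × E // QQ p G a b q} : ℂ) := by
  obtain ⟨γ, β, hE⟩ := exists_Exps p E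
  have hmem : ∀ z : E, z ^ γ ∈ G := by
    intro z
    rw [← QuotientGroup.eq_one_iff]
    obtain ⟨k, hk⟩ := hE.all_g z
    have h1 : orderOf ((z ^ γ : E) : E ⧸ G) ∣ p ^ k := by
      apply orderOf_dvd_of_pow_eq_one
      rw [← QuotientGroup.mk_pow, hk]
      rfl
    have h2 : orderOf ((z ^ γ : E) : E ⧸ G) ∣ G.index := orderOf_dvd_natCard _
    have h3 : Nat.Coprime (p ^ k) G.index :=
      ((Nat.Prime.coprime_iff_not_dvd hp.out).mpr hpG).pow_left k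
    have h4 := Nat.dvd_gcd h1 h2
    rw [h3.gcd_eq_one] at h4
    exact orderOf_eq_one_iff.mp (Nat.dvd_one.mp h4)
  unfold NN
  congr 1
  refine Nat.card_congr
    { toFun := fun t => ⟨(t.1.1, t.1.2.1 * t.1.2.2), ?_⟩
      invFun := fun q => ⟨(q.1.1, q.1.2 ^ β, q.1.2 ^ γ), ?_⟩
      left_inv := fun t => ?_
      right_inv := fun q => Subtype.ext (Prod.ext rfl (hE.mul _)) }
  · obtain ⟨⟨x, y, u⟩, h1, h2, h3, h4, h5, h6, h7, h8, h9⟩ := t
    dsimp only at h1 h2 h3 h4 h5 h6 h7 h8 h9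
    refine ⟨h1, ?_, h3, ?_⟩
    · change ((y : E ⧸ G)) * (u : E ⧸ G) = b
      rw [(QuotientGroup.eq_one_iff u).mpr h6, mul_one, h2]
    · change x * (y * u) = y * u * x
      rw [← mul_assoc, h5, mul_assoc, ← h8, mul_assoc]
  · obtain ⟨⟨x, z⟩, h1, h2, h3, h4⟩ := q
    dsimp only at h1 h2 h3 h4
    have hc : Commute x z := h4
    refine ⟨h1, ?_, h3, hE.all_b z, hc.pow_right β, hmem z, hE.all_g z, (hc.pow_right γ).symm,
      ((Commute.refl z).pow_pow γ β)⟩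
    change ((z ^ β : E) : E ⧸ G) = b
    have h5 := hE.mul z
    have h6 : ((z ^ β : E) : E ⧸ G) * ((z ^ γ : E) : E ⧸ G) = (z : E ⧸ G) := by
      rw [← QuotientGroup.mk_mul, h5]
    rw [(QuotientGroup.eq_one_iff _).mpr (hmem z), mul_one, h2] at h6
    exact h6
  · obtain ⟨⟨x, y, u⟩, h1, h2, h3, h4, h5, h6, h7, h8, h9⟩ := t
    dsimp only at h1 h2 h3 h4 h5 h6 h7 h8 h9
    have hc : Commute y u := h9.symm
    refine Subtype.ext (Prod.ext rfl (Prod.ext ?_ ?_))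
    · change (y * u) ^ β = y
      rw [hc.mul_pow, hE.reg_b y h4, hE.el_b u h7, mul_one]
    · change (y * u) ^ γ = u
      rw [hc.mul_pow, hE.reg_g y h4, hE.el_g u h7, one_mul]

/-- the `p`-regular elements of `G` -/
abbrev RegEl (p : ℕ) (G : Subgroup E) : Type := {x : G // ¬ p ∣ orderOf x}

/-- conjugation -/
instance regAct : MulAction E (RegEl p G) where
  smul e x := ⟨⟨e * x.1 * e⁻¹, hG.conj_mem _ x.1.2 e⟩, by
    have h1 : orderOf (⟨e * x.1 * e⁻¹, hG.conj_mem _ x.1.2 e⟩ : G) = orderOf x.1 := by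
      rw [← Subgroup.orderOf_coe, ← Subgroup.orderOf_coe]
      exact orderOf_injective (MulAut.conj e).toMonoidHom (MulAut.conj e).injective (x.1 : E)
    rw [h1]
    exact x.2⟩
  one_smul x := Subtype.ext (Subtype.ext (by
    change (1 : E) * x.1 * 1⁻¹ = x.1
    group))
  mul_smul a b x := Subtype.ext (Subtype.ext (by
    change (a * b) * (x.1 : E) * (a * b)⁻¹ = a * (b * x.1 * b⁻¹) * a⁻¹
    group))

lemma reg_fix {z : E} {x : RegEl p G} : z • x = x ↔ (x.1 : E) * z = z * x.1 := by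
  have h1 : z • x = x ↔ z * (x.1 : E) * z⁻¹ = x.1 := by
    constructor
    · intro h
      exact congrArg (fun w : RegEl p G => ((w.1 : G) : E)) h
    · intro h
      exact Subtype.ext (Subtype.ext h)
  rw [h1, mul_inv_eq_iff_eq_mul, eq_comm]

lemma mem_gen {x y g : E} (hg : Subgroup.closure ({(x : E ⧸ G), (y : E ⧸ G)} : Set (E ⧸ G)) =
      Subgroup.zpowers (g : E ⧸ G)) {S : Subgroup E} (hS : G ≤ S) : (x ∈ S ∧ y ∈ S) ↔ g ∈ S := by
  have hmk : ∀ z : E, z ∈ S ↔ (z : E ⧸ G) ∈ S.map (QuotientGroup.mk' G) := by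
    intro z
    constructor
    · exact fun h => ⟨z, h, rfl⟩
    · rintro ⟨z', hz', hzz⟩
      have h4 : z' * z⁻¹ ∈ G := coset_iff.mpr hzz
      have h5 := S.mul_mem (S.inv_mem (hS h4)) hz'
      have h6 : (z' * z⁻¹)⁻¹ * z' = z := by group
      rwa [h6] at h5
  rw [hmk x, hmk y, hmk g, ← Subgroup.zpowers_le (g := (g : E ⧸ G)), ← hg, Subgroup.closure_le,
    Set.insert_subset_iff, Set.singleton_subset_iff]
  rfl

/-- **Pairs of cosets.** -/
theorem card_pairs (hpG : ¬ p ∣ G.index) {x y g : E}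
    (hg : Subgroup.closure ({(x : E ⧸ G), (y : E ⧸ G)} : Set (E ⧸ G)) =
      Subgroup.zpowers (g : E ⧸ G)) :
    Nat.card G * cntS G (RegEl p G) (fun S => x ∈ S ∧ y ∈ S) =
      Nat.card {q : E × E // QQ p G (x : E ⧸ G) (y : E ⧸ G) q} := by
  have := Fintype.ofFinite (RegEl p G)
  have h1 : Nat.card {q : E × E // QQ p G (x : E ⧸ G) (y : E ⧸ G) q} =
      Nat.card {q : E × E // QQ p G (1 : E ⧸ G) (g : E ⧸ G) q} := by
    have h2 := NN_sym.gen (N := NN p G) hg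
    rw [NN_eq hpG, NN_eq hpG] at h2
    exact_mod_cast h2
  have h3 : ∀ S : Subgroup E, G ≤ S → ((x ∈ S ∧ y ∈ S) ↔ g ∈ S) := fun S hS => mem_gen hg hS
  rw [card_mul_cntS, h1]
  have h4 : ∀ w : RegEl p G, gs G w * b01 (x ∈ SS G w ∧ y ∈ SS G w) =
      Nat.card {z : E // (z : E ⧸ G) = (g : E ⧸ G) ∧ z • w = w} := by
    intro w
    rw [card_coset, b01_congr (h3 _ (G_le_SS w))]
  simp only [h4]
  rw [← Nat.card_sigma]
  refine Nat.card_congr
    { toFun := fun t => ⟨(t.1.1, t.2.1), (QuotientGroup.eq_one_iff _).mpr t.1.1.2, t.2.2.1, ?_,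
        reg_fix.mp t.2.2.2⟩
      invFun := fun q => ⟨⟨⟨q.1.1, (QuotientGroup.eq_one_iff _).mp q.2.1⟩, ?_⟩, q.1.2, q.2.2.1,
        reg_fix.mpr q.2.2.2.2⟩
      left_inv := fun _ => rfl
      right_inv := fun _ => rfl }
  · have := t.1.2
    rwa [← Subgroup.orderOf_coe] at this
  · rw [← Subgroup.orderOf_coe]
    exact q.2.2.2.1

lemma exists_gen (hc : IsCyclic (E ⧸ G)) (x y : E) : ∃ g : E,
    Subgroup.closure ({(x : E ⧸ G), (y : E ⧸ G)} : Set (E ⧸ G)) = Subgroup.zpowers (g : E ⧸ G) := by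
  have h1 : IsCyclic (Subgroup.closure ({(x : E ⧸ G), (y : E ⧸ G)} : Set (E ⧸ G))) := inferInstance
  obtain ⟨v, hv⟩ := (Subgroup.isCyclic_iff_exists_zpowers_eq_top _).mp h1
  obtain ⟨g, rfl⟩ := QuotientGroup.mk_surjective v
  exact ⟨g, hv.symm⟩

/-- **The `p`-regular classes.** -/
theorem reg_main (hc : IsCyclic (E ⧸ G)) (hpG : ¬ p ∣ G.index) {M : Subgroup E} (hGM : G ≤ M) :
    PP G (RegEl p G) M = Nat.card G * (Nat.card M * numRegularClasses p M) := by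
  have := Fintype.ofFinite M
  have hG0 : 0 < Nat.card G := Nat.card_pos
  refine Nat.eq_of_mul_eq_mul_left hG0 ?_
  unfold PP
  rw [finsum_eq_sum_of_fintype, Finset.mul_sum]
  have h1 : ∀ q : M × M, Nat.card G * cntS G (RegEl p G) (fun S => (q.1 : E) ∈ S ∧ (q.2 : E) ∈ S) =
      Nat.card {r : E × E // QQ p G ((q.1 : E) : E ⧸ G) ((q.2 : E) : E ⧸ G) r} := by
    intro q
    obtain ⟨g, hg⟩ := exists_gen hc (q.1 : E) (q.2 : E)
    exact card_pairs hpG hg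
  simp only [h1]
  rw [← Nat.card_sigma, card_mul_numRegularClasses, ← mul_assoc, ← Nat.card_prod, ← Nat.card_prod]
  have hM : ∀ {x r : E}, x ∈ M → (r : E ⧸ G) = (x : E ⧸ G) → r ∈ M := by
    intro x r hx h
    have h2 : r * x⁻¹ ∈ G := coset_iff.mpr h
    have h3 := M.mul_mem (hGM h2) hx
    rwa [inv_mul_cancel_right] at h3
  have aux : ∀ (q q' : M × M) (r : E × E)
      (h : QQ p G ((q.1 : E) : E ⧸ G) ((q.2 : E) : E ⧸ G) r)
      (h' : QQ p G ((q'.1 : E) : E ⧸ G) ((q'.2 : E) : E ⧸ G) r), q = q' →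
      (⟨q, ⟨r, h⟩⟩ : Σ q : M × M, {r : E × E // QQ p G ((q.1 : E) : E ⧸ G) ((q.2 : E) : E ⧸ G) r}) =
        ⟨q', ⟨r, h'⟩⟩ := by
    rintro q _ r h h' rfl
    rfl
  refine Nat.card_congr
    { toFun := fun t => ((⟨t.1.1 * t.2.1.1⁻¹, coset_iff.mpr t.2.2.1.symm⟩,
          ⟨t.1.2 * t.2.1.2⁻¹, coset_iff.mpr t.2.2.2.1.symm⟩),
        ⟨(⟨t.2.1.1, hM t.1.1.2 t.2.2.1⟩, ⟨t.2.1.2, hM t.1.2.2 t.2.2.2.1⟩), ?_, ?_⟩)
      invFun := fun s => ⟨(⟨s.1.1 * s.2.1.1, M.mul_mem (hGM s.1.1.2) s.2.1.1.2⟩,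
          ⟨s.1.2 * s.2.1.2, M.mul_mem (hGM s.1.2.2) s.2.1.2.2⟩),
        ⟨(s.2.1.1, s.2.1.2), ?_, ?_, ?_, ?_⟩⟩
      left_inv := fun t => ?_
      right_inv := fun s => ?_ }
  · rw [← Subgroup.orderOf_coe]
    exact t.2.2.2.2.1
  · exact Subtype.ext t.2.2.2.2.2
  · rw [← coset_iff]
    have h2 : (s.2.1.1 : E) * ((s.1.1 : E) * (s.2.1.1 : E))⁻¹ = (s.1.1 : E)⁻¹ := by group
    rw [h2]
    exact G.inv_mem s.1.1.2
  · rw [← coset_iff]
    have h2 : (s.2.1.2 : E) * ((s.1.2 : E) * (s.2.1.2 : E))⁻¹ = (s.1.2 : E)⁻¹ := by group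
    rw [h2]
    exact G.inv_mem s.1.2.2
  · have h2 := s.2.2.1
    rwa [← Subgroup.orderOf_coe] at h2
  · exact congrArg Subtype.val s.2.2.2
  · obtain ⟨⟨⟨x, hx⟩, ⟨y, hy⟩⟩, ⟨⟨r, r'⟩, h2⟩⟩ := t
    have e1 : x * r⁻¹ * r = x := inv_mul_cancel_right _ _
    have e2 : y * r'⁻¹ * r' = y := inv_mul_cancel_right _ _
    exact aux _ _ _ _ _ (Prod.ext (Subtype.ext e1) (Subtype.ext e2))
  · obtain ⟨⟨⟨x, hx⟩, ⟨y, hy⟩⟩, ⟨⟨⟨r, hr⟩, ⟨r', hr'⟩⟩, h2⟩⟩ := s
    have e1 : x * r * r⁻¹ = x := mul_inv_cancel_right _ _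
    have e2 : y * r' * r'⁻¹ = y := mul_inv_cancel_right _ _
    simp only [e1, e2]

end Pool.Agent.Q100.EW
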